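import Pool.Agent.Y589.Add

/-!
# Multiboard Gale-Stewart games: few boards can make all games determined
-/

namespace Pool.Agent.Results.MP_0c777d_lc.FewBoards

open Cardinal Pool.Agent.Y589.Boards

universe u

/-- `SmallFn I K` is the notion of forcing consisting of all partial functions from `I` to `K`
with fewer than `|K|` elements. `AllDetermined P K L` is the statement of the forcing language of
`P` that, for every set `S` of sequences of elements of `L`, the game `GS_L(S, K)` is determined.

Let `|K|` be regular and uncountable, `1 ≤ |L| ≤ |K| ≤ μ < |I|`, and `μ ^ ν ≤ μ` for all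
`ν < |K|`. Then every condition of `SmallFn I K` forces that all games `GS_L(S, K)` are determined.
In particular this happens for some `K` with `ℵ₁` elements, and `L = ℕ`; this `K` embeds into the
set of all functions from `ℕ` to `2`. So it is consistent that `D(ℵ₀, ℵ₁)` holds, while
`ℵ₁ < (2 ^ ℵ₀)⁺`. -/
theorem result :
    (∀ (K L I : Type u) (μ : Cardinal.{u}), (#K).IsRegular → ℵ₀ < #K → Nonempty L → #L ≤ #K →
      #K ≤ μ → (∀ ν < #K, μ ^ ν ≤ μ) → μ < #I →
        ∀ p : SmallFn I K, p ∈ AllDetermined (SmallFn I K) K L) ∧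
    ∃ K I : Type, #K = ℵ₁ ∧ Nonempty (K ↪ (ℕ → Bool)) ∧
      ∀ p : SmallFn I K, p ∈ AllDetermined (SmallFn I K) K ℕ := by
  refine ⟨fun K L I μ h1 h2 h3 h4 h5 h6 h7 p => determined_add h1 h2 h5 h6 h7 h3 h4 p,
    (ℵ₁ : Cardinal.{0}).out, (Order.succ continuum.{0}).out, mk_out _, ?_, fun p => ?_⟩
  · rw [← Cardinal.le_def, mk_out]
    have h1 : #(ℕ → Bool) = continuum.{0} := by simp
    rw [h1]
    exact aleph_one_le_continuum
  · refine determined_add (μ := continuum.{0}) ?_ ?_ ?_ ?_ ?_ ⟨0⟩ ?_ p
    · rw [mk_out]
      exact isRegular_aleph_one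
    · rw [mk_out]
      exact aleph0_lt_aleph_one
    · rw [mk_out]
      exact aleph_one_le_continuum
    · intro ν hν
      rw [mk_out] at hν
      have h1 : ν ≤ ℵ₀ := by
        rw [← succ_aleph0] at hν
        exact Order.lt_succ_iff.1 hν
      refine (power_le_power_left continuum_ne_zero h1).trans ?_
      rw [continuum_power_aleph0]
    · rw [mk_out]
      exact Order.lt_succ _
    · rw [mk_out, mk_nat]
      exact aleph0_lt_aleph_one.le

end Pool.Agent.Results.MP_0c777d_lc.FewBoards
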